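import Pool.Agent.TMX.Stmts3

/-!
# TMX, row TwoA: no two bad peaks in a gap if the superlevel sets have at most two components
-/

set_option autoImplicit false

namespace Pool.Agent.TMX.H48

open Finset Pool.Agent.TMX
open Pool.Agent.Helper51_Max (I IsMax)

theorem g_le_M {N : ℕ} {g M : ℕ → ℝ} (hM : IsMax N g M) {v : ℕ} (hv : v ≤ N) : g v ≤ M v := by
  have h1 := hM.le v hv 0
  have h2 : I N v 0 = {v} := by
    ext t
    unfold Pool.Agent.Helper51_Max.I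
    rw [mem_Icc, mem_singleton]
    omega
  rw [h2, sum_singleton, card_singleton, Nat.cast_one, mul_one] at h1
  exact h1

theorem I_eq {N v r : ℕ} (h : v + r ≤ N) : I N v r = Icc (v - r) (v + r) := by
  unfold Pool.Agent.Helper51_Max.I
  rw [min_eq_left h]

/-- the sum over an optimal ball -/
theorem opt_sum {N : ℕ} {g M : ℕ → ℝ} {z r : ℕ} (hr : z + r ≤ N)
    (hopt : M z * ((I N z r).card : ℝ) = ∑ i ∈ I N z r, g i) {s : ℝ} (hs : s ≤ M z) :
    0 ≤ ∑ i ∈ Icc (z - r) (z + r), (g i - s) := by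
  rw [← I_eq hr, sum_sub_distrib, ← hopt, sum_const, nsmul_eq_mul]
  have h1 : (0 : ℝ) ≤ ((I N z r).card : ℝ) := Nat.cast_nonneg _
  nlinarith

/-- a peak inside a gap: the ball `[A, A + 2 r]`, `z = A + r` -/
theorem peak (hTan : Tan) (hGap : GapB) (hBad : BadP) {N : ℕ} {g M : ℕ → ℝ} (hM : IsMax N g M)
    {p p' a b c : ℕ} (hG : Gap N g M p p') (hpa : p ≤ a) (hab : a < b) (hbc : b < c)
    (hcp : c ≤ p') (h1 : M a < M b) (h2 : M c < M b) :
    ∃ A z E : ℕ, A + E = 2 * z ∧ a < z ∧ z < c ∧ E < N ∧ M b ≤ M z ∧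
      (∀ s, s ≤ M z → 0 ≤ ∑ i ∈ Icc A E, (g i - s)) ∧
      (∃ i, A ≤ i ∧ i < a ∧ M z < g i) ∧ ∃ j, j ≤ E ∧ c < j ∧ M z < g j := by
  have hp'N : p' ≤ N := hG.right.1
  obtain ⟨z, hz, hmax⟩ := exists_max_image (Icc a c) M
    ⟨a, mem_Icc.2 ⟨le_rfl, (hab.trans hbc).le⟩⟩
  rw [mem_Icc] at hz
  have hbz : M b ≤ M z := hmax b (mem_Icc.2 ⟨hab.le, hbc.le⟩)
  have haz : a < z := by
    rcases Nat.lt_or_eq_of_le hz.1 with h | h
    · exact h
    · rw [← h] at hbz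
      linarith
  have hzc : z < c := by
    rcases Nat.lt_or_eq_of_le hz.2 with h | h
    · exact h
    · rw [h] at hbz
      linarith
  have hmax' : ∀ v, a ≤ v → v ≤ c → M v ≤ M z := fun v hv hv' => hmax v (mem_Icc.2 ⟨hv, hv'⟩)
  have hbad := hBad N g M hM p p' a z c hG hpa haz hzc hcp (by linarith) (by linarith) hmax'
  have hcN : c ≤ N := hcp.trans hp'N
  obtain ⟨r, hr⟩ := hM.attained z (hzc.le.trans hcN)
  obtain ⟨hgeo, ⟨i, hi1, hi2, _, hi3⟩, ⟨j, hj1, hj2, _, hj3⟩⟩ :=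
    hGap hTan N g M hM a z c r haz hzc hcN (by linarith) (by linarith) hr hbad
  have hrz := hgeo.rz
  have hrN := hgeo.rN
  refine ⟨z - r, z, z + r, ?_, haz, hzc, hrN, hbz, fun s hs => opt_sum hrN.le hr hs,
    ⟨i, ?_, hi2, hi3⟩, ⟨j, hj1, hj2, hj3⟩⟩
  · clear hmax' hbad hmax hr
    omega
  · clear hmax' hbad hmax hr
    omega

theorem leftC {N : ℕ} {g : ℕ → ℝ} {s : ℝ} {α c β : ℕ} (hT : TwoComp N g) (hαc : α < c)
    (hcβ : c < β) (hβN : β ≤ N) (hα : s ≤ g α) (hβ : s ≤ g β) (hgc : g c < s) :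
    ∀ i j, i ≤ j → j ≤ α → s ≤ g i → s ≤ g j := by
  intro i j hij hj hi
  by_contra hcon
  have hcon' := not_le.1 hcon
  have hij' : i < j := by
    rcases Nat.lt_or_eq_of_le hij with h | h
    · exact h
    · rw [← h] at hcon'
      linarith
  have hj' : j < α := by
    rcases Nat.lt_or_eq_of_le hj with h | h
    · exact h
    · rw [h] at hcon'
      linarith
  exact hT i j α c β hij' hj' hαc hcβ hβN
    ⟨by linarith, by linarith, by linarith, by linarith, by linarith, by linarith⟩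

theorem rightC {N : ℕ} {g : ℕ → ℝ} {s : ℝ} {α c β : ℕ} (hT : TwoComp N g) (hαc : α < c)
    (hcβ : c < β) (hα : s ≤ g α) (hβ : s ≤ g β) (hgc : g c < s) :
    ∀ i j, β ≤ i → i ≤ j → j ≤ N → s ≤ g j → s ≤ g i := by
  intro i j hi hij hj hgj
  by_contra hcon
  have hcon' := not_le.1 hcon
  have hij' : i < j := by
    rcases Nat.lt_or_eq_of_le hij with h | h
    · exact h
    · rw [h] at hcon'
      linarith
  have hi' : β < i := by
    rcases Nat.lt_or_eq_of_le hi with h | h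
    · exact h
    · rw [← h] at hcon'
      linarith
  exact hT α c β i j hαc hcβ hi' hij' hj
    ⟨by linarith, by linarith, by linarith, by linarith, by linarith, by linarith⟩

theorem finish {N : ℕ} {g M : ℕ → ℝ} (hM : IsMax N g M) {s : ℝ} {a' e' c : ℕ} (hac : a' < c)
    (he' : e' ≤ N) (hae : a' + e' = 2 * c) (hsum : 0 ≤ ∑ i ∈ Icc a' e', (g i - s)) :
    s ≤ M c := by
  have hball := hM.le c (by omega) (c - a')
  have hI : I N c (c - a') = Icc a' e' := by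
    unfold Pool.Agent.Helper51_Max.I
    have e5 : c - (c - a') = a' := by omega
    have e6 : min (c + (c - a')) N = e' := by omega
    rw [e5, e6]
  rw [hI] at hball
  rw [sum_sub_distrib, sum_const, nsmul_eq_mul] at hsum
  have hpos : (0 : ℝ) < ((Icc a' e').card : ℝ) := by
    exact_mod_cast card_pos.2 ⟨a', mem_Icc.2 ⟨le_rfl, by omega⟩⟩
  have h1 : s * ((Icc a' e').card : ℝ) ≤ M c * ((Icc a' e').card : ℝ) := by linarith
  exact le_of_mul_le_mul_right h1 hpos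

/-- **TwoA** -/
theorem twoA : TwoA := by
  intro hTan hGap hBad hCC N g M hM hT p p' hG a b c d e hpa hab hbc hcd hde hep h1 h2 h3 h4
  have hp'N : p' ≤ N := hG.right.1
  have hac : a < c := hab.trans hbc
  have hce : c < e := hcd.trans hde
  have heN : e ≤ N := hep.trans hp'N
  obtain ⟨A₁, z₁, E₁, hz1, haz1, hzc1, hE1, hbb, hs1, ⟨i₁, hi1, hi1a, hi1g⟩,
    ⟨j₁, hj1, hj1c, hj1g⟩⟩ := peak hTan hGap hBad hM hG hpa hab hbc (hce.le.trans hep) h1 h2
  obtain ⟨A₂, z₂, E₂, hz2, haz2, hzc2, hE2, hdd, hs2, ⟨i₂, hi2, hi2c, hi2g⟩,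
    ⟨j₂, hj2, hj2e, hj2g⟩⟩ := peak hTan hGap hBad hM hG (hpa.trans hac.le) hcd hde hep h3 h4
  obtain ⟨s, hs⟩ : ∃ s, s = min (M z₁) (M z₂) := ⟨_, rfl⟩
  have hsb : s ≤ M z₁ := by rw [hs]; exact min_le_left _ _
  have hsd : s ≤ M z₂ := by rw [hs]; exact min_le_right _ _
  have hMc : M c < s := by
    rw [hs]
    exact lt_min (by linarith) (by linarith)
  have hcN : c ≤ N := hce.le.trans heN
  have hgc : g c < s := lt_of_le_of_lt (g_le_M hM hcN) hMc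
  -- the largest index to the left
  have hi1c : i₁ < c := hi1a.trans hac
  obtain ⟨α, hα, hαm⟩ := exists_max_image ((range c).filter fun i => s ≤ g i) (fun i => i)
    ⟨i₁, mem_filter.2 ⟨mem_range.2 hi1c, hsb.trans hi1g.le⟩⟩
  rw [mem_filter, mem_range] at hα
  have e1 : i₁ ≤ α := hαm i₁ (mem_filter.2 ⟨mem_range.2 hi1c, hsb.trans hi1g.le⟩)
  have e3 : i₂ ≤ α := hαm i₂ (mem_filter.2 ⟨mem_range.2 hi2c, hsd.trans hi2g.le⟩)
  have hj2c : c < j₂ := hce.trans hj2e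
  have hj2N : j₂ ≤ N := hj2.trans hE2.le
  have hj1N : j₁ ≤ N := hj1.trans hE1.le
  obtain ⟨β, hβ, hβm⟩ := exists_min_image ((Icc (c + 1) N).filter fun i => s ≤ g i)
    (fun i => i) ⟨j₂, mem_filter.2 ⟨mem_Icc.2 ⟨hj2c, hj2N⟩, hsd.trans hj2g.le⟩⟩
  rw [mem_filter, mem_Icc] at hβ
  have e2 : β ≤ j₁ := hβm j₁ (mem_filter.2 ⟨mem_Icc.2 ⟨hj1c, hj1N⟩, hsb.trans hj1g.le⟩)
  have e4 : β ≤ j₂ := hβm j₂ (mem_filter.2 ⟨mem_Icc.2 ⟨hj2c, hj2N⟩, hsd.trans hj2g.le⟩)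
  have hcβ : c < β := hβ.1.1
  have hL := leftC hT hα.1 hcβ hβ.1.2 hα.2 hβ.2 hgc
  have hR := rightC hT hα.1 hcβ hα.2 hβ.2 hgc
  obtain ⟨a', e', ha', he', he'N, hae, hsum⟩ := hCC N g s α β (hα.1.trans hcβ) hβ.1.2 hL hR
    A₁ E₁ A₂ E₂ (2 * c) (hi1.trans e1) (hi2.trans e3) (e2.trans hj1) (e4.trans hj2)
    hE1.le hE2.le (hs1 s hsb) (hs2 s hsd)
    (by rw [hz1]; exact Nat.mul_le_mul_left 2 hzc1.le)
    (by rw [hz2]; exact Nat.mul_le_mul_left 2 haz2.le)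
  have hfin := finish hM (lt_of_le_of_lt ha' hα.1) he'N hae hsum
  linarith

end Pool.Agent.TMX.H48
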